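import Pool.Agent.Q5.SC.Twist

/-!
# Primes with prescribed quadratic symbols

(This is `Pool/Agent/Q5/SC/Basic.lean` without the dependence on the means; the lemmas are those of that file.)
-/

set_option autoImplicit false

namespace Pool.Agent.Q8.MC

open Pool.Agent.W263.BSD Pool.Agent.Q5.SC Filter Topology Classical

variable {k : ℕ} {a b : ℤ} {d : Fin k → ℤ}

/-- `d_I`, the product of the `d_i`, `i ∈ I` -/
def dd (d : Fin k → ℤ) (I : Finset (Fin k)) : ℤ := ∏ i ∈ I, d i

/-- `p` is a prime that does not divide `2 Δ d_1 ... d_k` -/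
def Good (a b : ℤ) (d : Fin k → ℤ) (p : ℕ) : Prop :=
  p.Prime ∧ ¬ ((p : ℤ) ∣ 2 * (-4 * a ^ 3 - 27 * b ^ 2) * ∏ i, d i)

/-- the symbols `(d_i / p)` are the `ε_i` -/
def InClass (d : Fin k → ℤ) (ε : Fin k → ℤˣ) (p : ℕ) : Prop := ∀ i, jacobiSym (d i) p = ε i

/-- the sign `∏_{i ∈ I} ε_i` -/
def sgn (ε : Fin k → ℤˣ) (I : Finset (Fin k)) : ℤ := ∏ i ∈ I, (ε i : ℤ)

/-- the local number at `p` -/
noncomputable def val (a b : ℤ) (d : Fin k → ℤ) (ε : Fin k → ℤˣ) (p : ℕ) : ℝ :=
  if Good a b d p then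
    if InClass d ε p then
      if ε = 1 then Real.log (((pointCount a b p : ℝ) + 1) / p)
      else 1 / 2 * Real.log (((pointCount a b p : ℝ) + 1) / (2 * p + 1 - pointCount a b p))
    else if ε = 1 then
      1 / 2 * Real.log (((pointCount a b p : ℝ) + 1) * (2 * p + 1 - pointCount a b p) / p ^ 2)
    else 0
  else 0

/-- the logarithm for the twist `I` -/
noncomputable def LI (a b : ℤ) (d : Fin k → ℤ) (I : Finset (Fin k)) (p : ℕ) : ℝ :=
  if Good a b d p then
    Real.log (((pointCount (a * dd d I ^ 2) (b * dd d I ^ 3) p : ℝ) + 1) / p) else 0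

theorem good_dd {p : ℕ} (h : Good a b d p) (I : Finset (Fin k)) : ¬ (p : ℤ) ∣ dd d I := by
  intro h1
  apply h.2
  refine Dvd.dvd.mul_left (h1.trans ?_) _
  exact Finset.prod_dvd_prod_of_subset _ _ _ (Finset.subset_univ I)

theorem Good.ne_two {p : ℕ} (h : Good a b d p) : p ≠ 2 := by
  intro h1
  apply h.2
  rw [h1]
  exact ⟨(-4 * a ^ 3 - 27 * b ^ 2) * ∏ i, d i, by push_cast; ring⟩

theorem Good.goodPrime {p : ℕ} (h : Good a b d p) (I : Finset (Fin k)) :
    GoodPrime (a * dd d I ^ 2) (b * dd d I ^ 3) p := by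
  refine ⟨h.1, fun h1 => ?_⟩
  have hp : Prime (p : ℤ) := Nat.prime_iff_prime_int.1 h.1
  have e1 : 2 * (-4 * (a * dd d I ^ 2) ^ 3 - 27 * (b * dd d I ^ 3) ^ 2) =
      (2 * (-4 * a ^ 3 - 27 * b ^ 2)) * dd d I ^ 6 := by ring
  rw [e1] at h1
  rcases hp.dvd_or_dvd h1 with h2 | h2
  · exact h.2 (h2.mul_right _)
  · exact good_dd h I (hp.dvd_of_dvd_pow h2)

/-- the sign of a good prime -/
theorem jac_dd {p : ℕ} {δ : Fin k → ℤˣ} (h : InClass d δ p) (I : Finset (Fin k)) :
    jacobiSym (dd d I) p = sgn δ I := by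
  unfold dd sgn
  induction I using Finset.induction_on with
  | empty => simp
  | insert i s hi ih =>
    rw [Finset.prod_insert hi, Finset.prod_insert hi, jacobiSym.mul_left, ih, h i]

theorem exists_class {p : ℕ} (h : Good a b d p) : ∃ δ : Fin k → ℤˣ, InClass d δ p := by
  have h1 : ∀ i, ∃ u : ℤˣ, jacobiSym (d i) p = u := by
    intro i
    have : Fact p.Prime := ⟨h.1⟩
    have h2 : ((d i : ℤ) : ZMod p) ≠ 0 := by
      rw [Ne, ZMod.intCast_zmod_eq_zero_iff_dvd]
      intro h3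
      exact h.2 ((h3.trans (Finset.dvd_prod_of_mem d (Finset.mem_univ i))).mul_left _)
    rw [← jacobiSym.legendreSym.to_jacobiSym]
    rcases legendreSym.eq_one_or_neg_one p h2 with h3 | h3
    · exact ⟨1, by rw [h3]; rfl⟩
    · exact ⟨-1, by rw [h3]; rfl⟩
  choose δ hδ using h1
  exact ⟨δ, hδ⟩

theorem class_unique {p : ℕ} {δ ε : Fin k → ℤˣ} (h : InClass d δ p) : InClass d ε p ↔ ε = δ := by
  constructor
  · intro h1
    funext i
    have := (h1 i).symm.trans (h i)
    exact Units.ext this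
  · rintro rfl
    exact h

theorem sum_sgn (ε : Fin k → ℤˣ) : ∑ I : Finset (Fin k), sgn ε I = if ε = 1 then 2 ^ k else 0 := by
  have h1 : ∑ I : Finset (Fin k), sgn ε I = ∏ i, (1 + (ε i : ℤ)) := by
    rw [Finset.prod_one_add, Finset.powerset_univ]
    rfl
  rw [h1]
  split_ifs with h
  · rw [h]
    simp only [Pi.one_apply, Units.val_one]
    rw [Finset.prod_const, Finset.card_univ, Fintype.card_fin]
    norm_num
  · have h2 : ∃ i, ε i ≠ 1 := by
      by_contra hc
      push Not at hc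
      exact h (funext hc)
    obtain ⟨i, hi⟩ := h2
    refine Finset.prod_eq_zero (Finset.mem_univ i) ?_
    rcases Int.units_eq_one_or (ε i) with h3 | h3
    · exact absurd h3 hi
    · rw [h3]; rfl

theorem sgn_mul (ε δ : Fin k → ℤˣ) (I : Finset (Fin k)) : sgn (ε * δ) I = sgn ε I * sgn δ I := by
  unfold sgn
  rw [← Finset.prod_mul_distrib]
  refine Finset.prod_congr rfl fun i _ => ?_
  rw [Pi.mul_apply, Units.val_mul]

theorem sum_sgn_mul (ε δ : Fin k → ℤˣ) :
    ∑ I : Finset (Fin k), sgn ε I * sgn δ I = if ε = δ then 2 ^ k else 0 := by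
  simp only [← sgn_mul]
  rw [sum_sgn]
  have h1 : ε * δ = 1 ↔ ε = δ := by
    constructor
    · intro h
      funext i
      have h2 := congrFun h i
      rw [Pi.mul_apply, Pi.one_apply] at h2
      rcases Int.units_eq_one_or (ε i) with h3 | h3 <;>
        rcases Int.units_eq_one_or (δ i) with h4 | h4 <;> rw [h3, h4] at h2 ⊢ <;> simp at h2
    · rintro rfl
      funext i
      rw [Pi.mul_apply, Pi.one_apply]
      exact Int.units_mul_self _
  simp only [h1]

theorem sgn_one_or (ε : Fin k → ℤˣ) (I : Finset (Fin k)) : sgn ε I = 1 ∨ sgn ε I = -1 := by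
  unfold sgn
  rw [← Units.coe_prod]
  rcases Int.units_eq_one_or (∏ i ∈ I, ε i) with h | h <;> rw [h]
  · left; rfl
  · right; rfl

/-- orthogonality in the other variable -/
theorem sum_sgn_sgn (I J : Finset (Fin k)) :
    ∑ ε : Fin k → ℤˣ, sgn ε I * sgn ε J = if I = J then 2 ^ k else 0 := by
  have h1 : ∀ ε : Fin k → ℤˣ, sgn ε I * sgn ε J =
      ∏ i, ((if i ∈ I then (ε i : ℤ) else 1) * (if i ∈ J then (ε i : ℤ) else 1)) := by
    intro ε
    unfold sgn
    rw [Finset.prod_mul_distrib, Finset.prod_ite_mem, Finset.prod_ite_mem, Finset.univ_inter,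
      Finset.univ_inter]
  simp only [h1]
  have h2 := Finset.prod_univ_sum (fun _ : Fin k => (Finset.univ : Finset ℤˣ))
    (fun i (u : ℤˣ) => ((if i ∈ I then (u : ℤ) else 1) * (if i ∈ J then (u : ℤ) else 1)))
  rw [Fintype.piFinset_univ] at h2
  rw [← h2]
  have h3 : ∀ i : Fin k, ∑ u : ℤˣ, ((if i ∈ I then (u : ℤ) else 1) * (if i ∈ J then (u : ℤ) else 1)) =
      if (i ∈ I ↔ i ∈ J) then 2 else 0 := by
    intro i
    have h4 : (Finset.univ : Finset ℤˣ) = {1, -1} := by decide
    rw [h4, Finset.sum_pair (by decide)]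
    by_cases h5 : i ∈ I <;> by_cases h6 : i ∈ J <;> simp [h5, h6]
  simp only [h3]
  split_ifs with h
  · subst h
    simp
  · have h7 : ∃ i, ¬ (i ∈ I ↔ i ∈ J) := by
      by_contra hc
      push Not at hc
      exact h (Finset.ext hc)
    obtain ⟨i, hi⟩ := h7
    refine Finset.prod_eq_zero (Finset.mem_univ i) ?_
    rw [if_neg hi]

/-- the local numbers are the averages of the logarithms of the twists -/
theorem val_eq (a b : ℤ) (d : Fin k → ℤ) (ε : Fin k → ℤˣ) (p : ℕ) :
    val a b d ε p = 1 / 2 ^ k * ∑ I : Finset (Fin k), (sgn ε I : ℝ) * LI a b d I p := by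
  unfold val LI
  by_cases hg : Good a b d p
  swap
  · simp [hg]
  obtain ⟨δ, hδ⟩ := exists_class hg
  simp only [hg, if_true, class_unique hδ]
  set n : ℝ := (pointCount a b p : ℝ) with hn
  have hp0 : (0 : ℝ) < p := by exact_mod_cast hg.1.pos
  have hle : n ≤ 2 * p := by
    rw [hn]
    exact_mod_cast pointCount_le_two_mul a b hg.1 hg.ne_two
  have hn0 : 0 ≤ n := by positivity
  set A : ℝ := Real.log ((n + 1) / p) with hA
  set B : ℝ := Real.log ((2 * p + 1 - n) / p) with hB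
  have h1 : ∀ I : Finset (Fin k),
      Real.log (((pointCount (a * dd d I ^ 2) (b * dd d I ^ 3) p : ℝ) + 1) / p) =
      1 / 2 * (A + B) + sgn δ I * (1 / 2 * (A - B)) := by
    intro I
    have h2 := pointCount_twist a b hg.1 hg.ne_two (good_dd hg I)
    rw [jac_dd hδ I] at h2
    have h3 : ((pointCount (a * dd d I ^ 2) (b * dd d I ^ 3) p : ℝ)) =
        p + (sgn δ I : ℝ) * (n - p) := by
      have := congrArg (fun z : ℤ => (z : ℝ)) h2
      push_cast at this
      linarith
    rw [h3]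
    rcases sgn_one_or δ I with h4 | h4
    · rw [h4]
      push_cast
      have e1 : (p + 1 * (n - p) + 1 : ℝ) = n + 1 := by ring
      rw [e1, ← hA]
      ring
    · rw [h4]
      push_cast
      have e1 : (p + -1 * (n - p) + 1 : ℝ) = 2 * p + 1 - n := by ring
      rw [e1, ← hB]
      ring
  simp only [h1]
  have h5 : ∑ I : Finset (Fin k), (sgn ε I : ℝ) * (1 / 2 * (A + B) + sgn δ I * (1 / 2 * (A - B))) =
      (∑ I : Finset (Fin k), (sgn ε I : ℝ)) * (1 / 2 * (A + B)) +
        (∑ I : Finset (Fin k), (sgn ε I : ℝ) * sgn δ I) * (1 / 2 * (A - B)) := by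
    rw [Finset.sum_mul, Finset.sum_mul, ← Finset.sum_add_distrib]
    refine Finset.sum_congr rfl fun I _ => ?_
    ring
  have h6 : ∑ I : Finset (Fin k), (sgn ε I : ℝ) = if ε = 1 then 2 ^ k else 0 := by
    have := congrArg (fun z : ℤ => (z : ℝ)) (sum_sgn ε)
    push_cast at this
    exact this
  have h7 : ∑ I : Finset (Fin k), (sgn ε I : ℝ) * sgn δ I = if ε = δ then 2 ^ k else 0 := by
    have := congrArg (fun z : ℤ => (z : ℝ)) (sum_sgn_mul ε δ)
    push_cast at this
    exact this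
  rw [h5, h6, h7]
  have hAB1 : Real.log ((n + 1) / (2 * p + 1 - n)) = A - B := by
    rw [hA, hB, ← Real.log_div (by positivity) (by
      have : 0 < 2 * (p : ℝ) + 1 - n := by linarith
      positivity)]
    congr 1
    have : 0 < 2 * (p : ℝ) + 1 - n := by linarith
    field_simp
  have hAB2 : Real.log ((n + 1) * (2 * p + 1 - n) / p ^ 2) = A + B := by
    rw [hA, hB, ← Real.log_mul (by positivity) (by
      have : 0 < 2 * (p : ℝ) + 1 - n := by linarith
      positivity)]
    congr 1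
    field_simp
  rw [hAB1, hAB2]
  have h2k : (2 : ℝ) ^ k ≠ 0 := by positivity
  split_ifs with h8 h9 h9
  · field_simp
    ring
  · field_simp
    ring
  · field_simp
    ring
  · ring

theorem LI_eq (a b : ℤ) (d : Fin k → ℤ) (I : Finset (Fin k)) (p : ℕ) :
    LI a b d I p = ∑ ε : Fin k → ℤˣ, (sgn ε I : ℝ) * val a b d ε p := by
  simp only [val_eq]
  have h1 : ∀ ε : Fin k → ℤˣ, (sgn ε I : ℝ) * (1 / 2 ^ k * ∑ J : Finset (Fin k),
      (sgn ε J : ℝ) * LI a b d J p) = ∑ J : Finset (Fin k),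
      1 / 2 ^ k * ((sgn ε I : ℝ) * sgn ε J) * LI a b d J p := by
    intro ε
    rw [Finset.mul_sum, Finset.mul_sum]
    refine Finset.sum_congr rfl fun J _ => ?_
    ring
  simp only [h1]
  rw [Finset.sum_comm]
  have h2 : ∀ J : Finset (Fin k), ∑ ε : Fin k → ℤˣ, 1 / 2 ^ k * ((sgn ε I : ℝ) * sgn ε J) *
      LI a b d J p = if I = J then LI a b d J p else 0 := by
    intro J
    rw [← Finset.sum_mul, ← Finset.mul_sum]
    have h3 : ∑ ε : Fin k → ℤˣ, (sgn ε I : ℝ) * sgn ε J = if I = J then 2 ^ k else 0 := by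
      have := congrArg (fun z : ℤ => (z : ℝ)) (sum_sgn_sgn I J)
      push_cast at this
      exact this
    rw [h3]
    split_ifs
    · have h2k : (2 : ℝ) ^ k ≠ 0 := by positivity
      field_simp
    · ring
  simp only [h2]
  rw [Finset.sum_ite_eq]
  simp

end Pool.Agent.Q8.MC
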