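import Pool.Agent.Q8.MC.Cls

/-!
# The law for the products over the primes of the classes
-/

set_option autoImplicit false

open Filter Topology Classical
open Pool.Agent.W263.BSD (GoodPrime pointCount)

namespace Pool.Agent.Q8.MC

open Pool.Agent.TH270.MS (BM one_le_log)

variable {k : ℕ} {a b : ℤ} {d : Fin k → ℤ}

/-- the product of a curve -/
noncomputable def fullProduct (a b : ℤ) (x : ℝ) : ℝ :=
  ∏ p ∈ (Finset.range (⌊x⌋₊ + 1)).filter (GoodPrime a b), (((pointCount a b p : ℝ) + 1) / p)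

/-- the product of a curve over the prime powers -/
noncomputable def fullStar (a b : ℤ) (x : ℝ) : ℝ :=
  fullProduct a b x * Real.exp (∑ p ∈ (Finset.range (⌊x⌋₊ + 1)).filter
    (fun p => GoodPrime a b p ∧ √x < p),
      (((p : ℝ) - pointCount a b p) ^ 2 - 2 * p) / (2 * (p : ℝ) ^ 2))

/-- the product of a class over the prime powers -/
noncomputable def classStar (a b : ℤ) (d : Fin k → ℤ) (ε : Fin k → ℤˣ) (x : ℝ) : ℝ :=
  classProduct a b d ε x * if ε = 1 then √2 * Real.exp (corr a b d x) else 1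

/-- the exponent of the twist `I` -/
noncomputable def rI (ρ : (Fin k → ℤˣ) → ℝ) (I : Finset (Fin k)) : ℝ :=
  ∑ ε : Fin k → ℤˣ, (sgn ε I : ℝ) * ρ ε

/-- the constant of the twist `I` -/
noncomputable def cI (a b : ℤ) (d : Fin k → ℤ) (C : (Fin k → ℤˣ) → ℝ) (I : Finset (Fin k)) : ℝ :=
  kap a b d I * ∏ ε : Fin k → ℤˣ, C ε ^ sgn ε I

/-- the deviation of the product of the twist `I` -/
noncomputable def dv (a b : ℤ) (d : Fin k → ℤ) (ρ C : (Fin k → ℤˣ) → ℝ) (I : Finset (Fin k))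
    (x : ℝ) : ℝ :=
  Real.log (fullProduct (a * dd d I ^ 2) (b * dd d I ^ 3) x / (cI a b d C I * Real.log x ^ rI ρ I))

/-- the deviation of the product over the prime powers of the twist `I` -/
noncomputable def dvS (a b : ℤ) (d : Fin k → ℤ) (ρ C : (Fin k → ℤˣ) → ℝ) (I : Finset (Fin k))
    (x : ℝ) : ℝ :=
  Real.log (√2 * fullStar (a * dd d I ^ 2) (b * dd d I ^ 3) x /
    (cI a b d C I * Real.log x ^ rI ρ I))

/-- the deviation of the class `ε` -/
noncomputable def cdv (a b : ℤ) (d : Fin k → ℤ) (ρ C : (Fin k → ℤˣ) → ℝ) (ε : Fin k → ℤˣ)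
    (x : ℝ) : ℝ :=
  Real.log (classProduct a b d ε x / (C ε * Real.log x ^ ρ ε))

/-- the deviation of the class `ε` over the prime powers -/
noncomputable def cdvS (a b : ℤ) (d : Fin k → ℤ) (ρ C : (Fin k → ℤˣ) → ℝ) (ε : Fin k → ℤˣ)
    (x : ℝ) : ℝ :=
  Real.log (classStar a b d ε x / (C ε * Real.log x ^ ρ ε))

theorem log_dev {P C ρ x : ℝ} (hP : 0 < P) (hC : 0 < C) (hx : Real.exp 1 ≤ x) :
    Real.log (P / (C * Real.log x ^ ρ)) = Real.log P - ρ * Real.log (Real.log x) - Real.log C := by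
  have hl : 0 < Real.log x := by linarith [one_le_log hx]
  have hr := Real.rpow_pos_of_pos hl ρ
  rw [Real.log_div hP.ne' (by positivity), Real.log_mul hC.ne' hr.ne', Real.log_rpow hl]
  ring

theorem bm_dev {P : ℝ → ℝ} (hP : ∀ x, 0 < P x) (h : BM fun x => Real.log (P x)) {C : ℝ}
    (hC : 0 < C) (ρ : ℝ) : BM fun x => Real.log (P x / (C * Real.log x ^ ρ)) :=
  bm_congr ((h.sub ((BM.const ρ).mul BM.loglog)).sub (BM.const (Real.log C)))
    fun x hx => (log_dev (hP x) hC hx).symm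

theorem fullProduct_pos (a b : ℤ) (x : ℝ) : 0 < fullProduct a b x := by
  unfold fullProduct
  refine Finset.prod_pos fun p hp => ?_
  have hp0 : (0 : ℝ) < p := by exact_mod_cast (Finset.mem_filter.1 hp).2.1.pos
  positivity

theorem fullStar_pos (a b : ℤ) (x : ℝ) : 0 < fullStar a b x :=
  mul_pos (fullProduct_pos a b x) (Real.exp_pos _)

theorem log_fullProduct (a b : ℤ) (x : ℝ) : Real.log (fullProduct a b x) =
    ∑ p ∈ (Finset.range (⌊x⌋₊ + 1)).filter (GoodPrime a b),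
      Real.log (((pointCount a b p : ℝ) + 1) / p) := by
  unfold fullProduct
  rw [Real.log_prod]
  intro p hp
  have hp0 : (0 : ℝ) < p := by exact_mod_cast (Finset.mem_filter.1 hp).2.1.pos
  positivity

theorem bm_full (a b : ℤ) : BM fun x => Real.log (fullProduct a b x) := by
  simp only [log_fullProduct, Finset.sum_filter]
  exact bm_range _

theorem log_fullStar (a b : ℤ) (x : ℝ) : Real.log (fullStar a b x) =
    Real.log (fullProduct a b x) + ∑ p ∈ (Finset.range (⌊x⌋₊ + 1)).filter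
    (fun p => GoodPrime a b p ∧ √x < p),
      (((p : ℝ) - pointCount a b p) ^ 2 - 2 * p) / (2 * (p : ℝ) ^ 2) := by
  unfold fullStar
  rw [Real.log_mul (fullProduct_pos a b x).ne' (Real.exp_pos _).ne', Real.log_exp]

theorem bm_fullStar (a b : ℤ) : BM fun x => Real.log (fullStar a b x) := by
  simp only [log_fullStar]
  exact (bm_full a b).add (BM.step (GoodPrime a b) (fun q => (((q : ℝ) - pointCount a b q) ^ 2 -
    2 * q) / (2 * (q : ℝ) ^ 2)) Real.sqrt Real.continuous_sqrt.measurable)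

theorem classStar_pos (ε : Fin k → ℤˣ) (x : ℝ) : 0 < classStar a b d ε x := by
  unfold classStar
  refine mul_pos (classProduct_pos ε x) ?_
  split_ifs
  · positivity
  · exact one_pos

theorem log_classStar (ε : Fin k → ℤˣ) (x : ℝ) : Real.log (classStar a b d ε x) =
    logP a b d ε x + if ε = 1 then Real.log √2 + corr a b d x else 0 := by
  unfold classStar
  have h2 : (0 : ℝ) < √2 := by positivity
  rw [Real.log_mul (classProduct_pos ε x).ne', log_classProduct]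
  · split_ifs
    · rw [Real.log_mul h2.ne' (Real.exp_pos _).ne', Real.log_exp]
    · rw [Real.log_one]
  · split_ifs
    · positivity
    · exact one_ne_zero

theorem cI_pos {C : (Fin k → ℤˣ) → ℝ} (hC : ∀ ε, 0 < C ε) (I : Finset (Fin k)) :
    0 < cI a b d C I :=
  mul_pos (kap_pos I) (Finset.prod_pos fun ε _ => zpow_pos (hC ε) _)

theorem log_cI {C : (Fin k → ℤˣ) → ℝ} (hC : ∀ ε, 0 < C ε) (I : Finset (Fin k)) :
    Real.log (cI a b d C I) = Real.log (kap a b d I) +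
      ∑ ε : Fin k → ℤˣ, (sgn ε I : ℝ) * Real.log (C ε) := by
  unfold cI
  rw [Real.log_mul (kap_pos I).ne' (Finset.prod_pos fun ε _ => zpow_pos (hC ε) _).ne',
    Real.log_prod fun ε _ => (zpow_pos (hC ε) _).ne']
  congr 1
  exact Finset.sum_congr rfl fun ε _ => Real.log_zpow _ _

variable {ρ C : (Fin k → ℤˣ) → ℝ}

theorem bm_dv (hC : ∀ ε, 0 < C ε) (I : Finset (Fin k)) : BM (dv a b d ρ C I) :=
  bm_dev (fullProduct_pos _ _) (bm_full _ _) (cI_pos hC I) _

theorem bm_dvS (hC : ∀ ε, 0 < C ε) (I : Finset (Fin k)) : BM (dvS a b d ρ C I) := by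
  have h2 : (0 : ℝ) < √2 := by positivity
  refine bm_dev (P := fun x => √2 * fullStar (a * dd d I ^ 2) (b * dd d I ^ 3) x)
    (fun x => mul_pos h2 (fullStar_pos _ _ x)) ?_ (cI_pos hC I) _
  have e : (fun x => Real.log (√2 * fullStar (a * dd d I ^ 2) (b * dd d I ^ 3) x)) =
      fun x => Real.log √2 + Real.log (fullStar (a * dd d I ^ 2) (b * dd d I ^ 3) x) := by
    funext x
    rw [Real.log_mul h2.ne' (fullStar_pos _ _ x).ne']
  rw [e]
  exact (BM.const _).add (bm_fullStar _ _)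

theorem bm_cdv (hC : ∀ ε, 0 < C ε) (ε : Fin k → ℤˣ) : BM (cdv a b d ρ C ε) := by
  refine bm_dev (classProduct_pos ε) ?_ (hC ε) _
  simp only [log_classProduct]
  exact bm_logP ε

theorem bm_cdvS (hC : ∀ ε, 0 < C ε) (ε : Fin k → ℤˣ) : BM (cdvS a b d ρ C ε) := by
  refine bm_dev (classStar_pos ε) ?_ (hC ε) _
  simp only [log_classStar]
  refine (bm_logP ε).add ?_
  by_cases h : ε = 1
  · simp only [if_pos h]
    exact (BM.const _).add bm_corr'
  · simp only [if_neg h]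
    exact BM.const 0

theorem dv_eq (hd : ∀ i, d i ≠ 0) (hC : ∀ ε, 0 < C ε) (I : Finset (Fin k)) :
    ∀ᶠ x in atTop, dv a b d ρ C I x =
      ∑ ε : Fin k → ℤˣ, (sgn ε I : ℝ) * cdv a b d ρ C ε x := by
  filter_upwards [eventually_ge_atTop (Real.exp 1),
    eventually_ge_atTop ((∏ i, d i).natAbs : ℝ)] with x hx hx2
  unfold dv cdv
  rw [log_dev (fullProduct_pos _ _ x) (cI_pos hC I) hx, log_fullProduct, log_twist hd I hx2,
    log_cI hC I]
  have e : ∀ ε : Fin k → ℤˣ, Real.log (classProduct a b d ε x / (C ε * Real.log x ^ ρ ε)) =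
      logP a b d ε x - ρ ε * Real.log (Real.log x) - Real.log (C ε) := fun ε => by
    rw [log_dev (classProduct_pos ε x) (hC ε) hx, log_classProduct]
  simp only [e]
  unfold rI
  simp only [mul_sub, Finset.sum_sub_distrib, Finset.sum_mul]
  have e2 : ∑ ε : Fin k → ℤˣ, (sgn ε I : ℝ) * ρ ε * Real.log (Real.log x) =
      ∑ ε : Fin k → ℤˣ, (sgn ε I : ℝ) * (ρ ε * Real.log (Real.log x)) :=
    Finset.sum_congr rfl fun ε _ => by ring
  rw [e2]
  ring

theorem dvS_eq (hd : ∀ i, d i ≠ 0) (hC : ∀ ε, 0 < C ε) (I : Finset (Fin k)) :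
    ∀ᶠ x in atTop, dvS a b d ρ C I x =
      ∑ ε : Fin k → ℤˣ, (sgn ε I : ℝ) * cdvS a b d ρ C ε x := by
  filter_upwards [eventually_ge_atTop (Real.exp 1),
    eventually_ge_atTop ((∏ i, d i).natAbs : ℝ),
    eventually_ge_atTop (((∏ i, d i).natAbs : ℝ) ^ 2)] with x hx hx2 hx3
  have h2 : (0 : ℝ) < √2 := by positivity
  unfold dvS cdvS
  rw [log_dev (mul_pos h2 (fullStar_pos _ _ x)) (cI_pos hC I) hx,
    Real.log_mul h2.ne' (fullStar_pos _ _ x).ne', log_fullStar, corr_twist hd I hx3,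
    log_fullProduct, log_twist hd I hx2, log_cI hC I]
  have e : ∀ ε : Fin k → ℤˣ, Real.log (classStar a b d ε x / (C ε * Real.log x ^ ρ ε)) =
      logP a b d ε x + (if ε = 1 then Real.log √2 + corr a b d x else 0) -
        ρ ε * Real.log (Real.log x) - Real.log (C ε) := fun ε => by
    rw [log_dev (classStar_pos ε x) (hC ε) hx, log_classStar]
  simp only [e]
  unfold rI
  simp only [mul_sub, mul_add, Finset.sum_sub_distrib, Finset.sum_add_distrib, Finset.sum_mul]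
  have e2 : ∑ ε : Fin k → ℤˣ, (sgn ε I : ℝ) * ρ ε * Real.log (Real.log x) =
      ∑ ε : Fin k → ℤˣ, (sgn ε I : ℝ) * (ρ ε * Real.log (Real.log x)) :=
    Finset.sum_congr rfl fun ε _ => by ring
  have e3 : ∑ ε : Fin k → ℤˣ, (sgn ε I : ℝ) * (if ε = 1 then Real.log √2 + corr a b d x else 0) =
      Real.log √2 + corr a b d x := by
    simp only [mul_ite, mul_zero]
    rw [Finset.sum_ite_eq' Finset.univ (1 : Fin k → ℤˣ), if_pos (Finset.mem_univ _)]
    have : sgn (1 : Fin k → ℤˣ) I = 1 := by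
      unfold sgn
      simp
    rw [this]
    simp
  rw [e2, e3]
  ring

/-- **the law for the classes, with the constants** -/
theorem law (hd : ∀ i, d i ≠ 0) (hC : ∀ ε, 0 < C ε) {A : Finset (Fin k) → Prop}
    (h : ∀ I, List.TFAE [A I, P1 (dv a b d ρ C I), P2 (dv a b d ρ C I), PI (dvS a b d ρ C I)]) :
    List.TFAE [∀ I, A I, ∀ ε, P1 (cdv a b d ρ C ε), ∀ ε, P2 (cdv a b d ρ C ε),
      ∀ ε, PI (cdvS a b d ρ C ε)] := by
  have e1 : (∀ I, P1 (dv a b d ρ C I)) ↔ ∀ ε, P1 (cdv a b d ρ C ε) :=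
    clP1.equiv _ _ (bm_cdv hC) (bm_dv hC) (dv_eq hd hC)
  have e2 : (∀ I, P2 (dv a b d ρ C I)) ↔ ∀ ε, P2 (cdv a b d ρ C ε) :=
    clP2.equiv _ _ (bm_cdv hC) (bm_dv hC) (dv_eq hd hC)
  have e3 : (∀ I, PI (dvS a b d ρ C I)) ↔ ∀ ε, PI (cdvS a b d ρ C ε) :=
    clPI.equiv _ _ (bm_cdvS hC) (bm_dvS hC) (dvS_eq hd hC)
  have f1 : (∀ I, A I) ↔ ∀ I, P1 (dv a b d ρ C I) := forall_congr' fun I => (h I).out 0 1
  have f2 : (∀ I, A I) ↔ ∀ I, P2 (dv a b d ρ C I) := forall_congr' fun I => (h I).out 0 2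
  have f3 : (∀ I, A I) ↔ ∀ I, PI (dvS a b d ρ C I) := forall_congr' fun I => (h I).out 0 3
  tfae_have 1 ↔ 2 := f1.trans e1
  tfae_have 1 ↔ 3 := f2.trans e2
  tfae_have 1 ↔ 4 := f3.trans e3
  tfae_finish

/-- the exponents of the twists from those of the classes -/
theorem sum_mean (r : Finset (Fin k) → ℕ) (I : Finset (Fin k)) :
    ∑ ε : Fin k → ℤˣ, (sgn ε I : ℝ) *
      (1 / 2 ^ k * ∑ J : Finset (Fin k), (sgn ε J : ℝ) * r J) = r I := by
  have h1 : ∀ ε : Fin k → ℤˣ, (sgn ε I : ℝ) * (1 / 2 ^ k * ∑ J : Finset (Fin k),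
      (sgn ε J : ℝ) * r J) = ∑ J : Finset (Fin k),
      1 / 2 ^ k * ((sgn ε I : ℝ) * sgn ε J) * r J := by
    intro ε
    rw [Finset.mul_sum, Finset.mul_sum]
    refine Finset.sum_congr rfl fun J _ => ?_
    ring
  simp only [h1]
  rw [Finset.sum_comm]
  have h2 : ∀ J : Finset (Fin k), ∑ ε : Fin k → ℤˣ, 1 / 2 ^ k * ((sgn ε I : ℝ) * sgn ε J) *
      (r J : ℝ) = if I = J then (r J : ℝ) else 0 := by
    intro J
    rw [← Finset.sum_mul, ← Finset.mul_sum]
    have h3 : ∑ ε : Fin k → ℤˣ, (sgn ε I : ℝ) * sgn ε J = if I = J then 2 ^ k else 0 := by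
      have := congrArg (fun z : ℤ => (z : ℝ)) (sum_sgn_sgn I J)
      push_cast at this
      exact this
    rw [h3]
    split_ifs
    · have h2k : (2 : ℝ) ^ k ≠ 0 := by positivity
      field_simp
    · ring
  simp only [h2]
  rw [Finset.sum_ite_eq]
  simp

/-- the deviation without constant, of a twist -/
noncomputable def dv0 (a b : ℤ) (d : Fin k → ℤ) (ρ : (Fin k → ℤˣ) → ℝ) (I : Finset (Fin k))
    (x : ℝ) : ℝ :=
  Real.log (fullProduct (a * dd d I ^ 2) (b * dd d I ^ 3) x) - rI ρ I * Real.log (Real.log x)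

/-- the deviation without constant, of a class -/
noncomputable def cdv0 (a b : ℤ) (d : Fin k → ℤ) (ρ : (Fin k → ℤˣ) → ℝ) (ε : Fin k → ℤˣ)
    (x : ℝ) : ℝ :=
  Real.log (classProduct a b d ε x) - ρ ε * Real.log (Real.log x)

theorem bm_dv0 (I : Finset (Fin k)) : BM (dv0 a b d ρ I) :=
  (bm_full _ _).sub ((BM.const _).mul BM.loglog)

theorem bm_cdv0 (ε : Fin k → ℤˣ) : BM (cdv0 a b d ρ ε) := by
  unfold cdv0
  simp only [log_classProduct]
  exact (bm_logP ε).sub ((BM.const _).mul BM.loglog)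

theorem PB.shift {f : ℝ → ℝ} (hf : BM f) (h : PB f) (c : ℝ) : PB fun x => f x + c := by
  refine Pool.Agent.TH270.MS.bmean_of hf.li (hf.add (BM.const c)).li (M := |c|) (fun y _ => ?_) h
  rw [sub_add_cancel_left, abs_neg]

/-- **the law for the classes, without constants** -/
theorem law0 (hd : ∀ i, d i ≠ 0) {A : Finset (Fin k) → Prop}
    (h : ∀ I, A I ↔ PB (dv0 a b d ρ I)) : (∀ I, A I) ↔ ∀ ε, PB (cdv0 a b d ρ ε) := by
  have e1 : (∀ I, PB fun x => dv0 a b d ρ I x + -Real.log (kap a b d I)) ↔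
      ∀ ε, PB (cdv0 a b d ρ ε) := by
    refine clPB.equiv _ _ bm_cdv0 (fun I => (bm_dv0 I).add (BM.const _)) fun I => ?_
    filter_upwards [eventually_ge_atTop ((∏ i, d i).natAbs : ℝ)] with x hx2
    unfold dv0 cdv0
    rw [log_fullProduct, log_twist hd I hx2]
    simp only [log_classProduct]
    unfold rI
    simp only [mul_sub, Finset.sum_sub_distrib, Finset.sum_mul]
    have e2 : ∑ ε : Fin k → ℤˣ, (sgn ε I : ℝ) * ρ ε * Real.log (Real.log x) =
        ∑ ε : Fin k → ℤˣ, (sgn ε I : ℝ) * (ρ ε * Real.log (Real.log x)) :=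
      Finset.sum_congr rfl fun ε _ => by ring
    rw [e2]
    ring
  rw [← e1]
  refine forall_congr' fun I => (h I).trans ⟨fun h1 => PB.shift (bm_dv0 I) h1 _, fun h1 => ?_⟩
  have h2 := PB.shift ((bm_dv0 I).add (BM.const _)) h1 (Real.log (kap a b d I))
  simpa only [neg_add_cancel_right] using h2

end Pool.Agent.Q8.MC
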