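import Pool.Agent.Q8.MC.Lin

/-!
# The products over the primes of a class
-/

set_option autoImplicit false

open Filter Topology Classical
open Pool.Agent.W263.BSD (GoodPrime pointCount)

namespace Pool.Agent.Q8.MC

open Pool.Agent.TH270.MS (BM one_le_log)
open Pool.Agent.Q5.SC (pointCount_twist pointCount_le_two_mul)

variable {k : ℕ} {a b : ℤ} {d : Fin k → ℤ}

/-- the product for the class `ε` -/
noncomputable def classProduct (a b : ℤ) (d : Fin k → ℤ) (ε : Fin k → ℤˣ) (x : ℝ) : ℝ :=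
  ∏ p ∈ (Finset.range (⌊x⌋₊ + 1)).filter (Good a b d),
    if InClass d ε p then
      if ε = 1 then ((pointCount a b p : ℝ) + 1) / p
      else √(((pointCount a b p : ℝ) + 1) / (2 * p + 1 - pointCount a b p))
    else if ε = 1 then √(((pointCount a b p : ℝ) + 1) * (2 * p + 1 - pointCount a b p) / p ^ 2)
    else 1

/-- the logarithm of the product -/
noncomputable def logP (a b : ℤ) (d : Fin k → ℤ) (ε : Fin k → ℤˣ) (x : ℝ) : ℝ :=
  ∑ p ∈ Finset.range (⌊x⌋₊ + 1), val a b d ε p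

/-- the terms of the squares of the primes -/
noncomputable def corr (a b : ℤ) (d : Fin k → ℤ) (x : ℝ) : ℝ :=
  ∑ p ∈ (Finset.range (⌊x⌋₊ + 1)).filter (fun p => Good a b d p ∧ √x < p),
    (((p : ℝ) - pointCount a b p) ^ 2 - 2 * p) / (2 * (p : ℝ) ^ 2)

theorem Good.bd {p : ℕ} (h : Good a b d p) : (0 : ℝ) < p ∧ (0 : ℝ) < (pointCount a b p : ℝ) + 1 ∧
    (0 : ℝ) < 2 * p + 1 - pointCount a b p := by
  have h1 : (pointCount a b p : ℝ) ≤ 2 * p := by
    exact_mod_cast pointCount_le_two_mul a b h.1 h.ne_two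
  have h2 : (0 : ℝ) < p := by exact_mod_cast h.1.pos
  exact ⟨h2, by positivity, by linarith⟩

theorem classProduct_pos (ε : Fin k → ℤˣ) (x : ℝ) : 0 < classProduct a b d ε x := by
  unfold classProduct
  refine Finset.prod_pos fun p hp => ?_
  obtain ⟨h1, h2, h3⟩ := (Finset.mem_filter.1 hp).2.bd
  split_ifs
  · positivity
  · positivity
  · positivity
  · exact one_pos

theorem log_classProduct (ε : Fin k → ℤˣ) (x : ℝ) :
    Real.log (classProduct a b d ε x) = logP a b d ε x := by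
  unfold classProduct logP
  rw [Real.log_prod]
  · rw [Finset.sum_filter]
    refine Finset.sum_congr rfl fun p _ => ?_
    unfold val
    by_cases hg : Good a b d p
    · rw [if_pos hg, if_pos hg]
      obtain ⟨h1, h2, h3⟩ := hg.bd
      split_ifs
      · rfl
      · rw [Real.log_sqrt (by positivity)]
        ring
      · rw [Real.log_sqrt (by positivity)]
        ring
      · exact Real.log_one
    · rw [if_neg hg, if_neg hg]
  · intro p hp
    obtain ⟨h1, h2, h3⟩ := (Finset.mem_filter.1 hp).2.bd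
    split_ifs
    · positivity
    · positivity
    · positivity
    · exact one_ne_zero

/-- step functions -/
theorem bm_range (c : ℕ → ℝ) : BM fun x : ℝ => ∑ p ∈ Finset.range (⌊x⌋₊ + 1), c p := by
  have h1 := BM.step (fun _ => True) c (fun _ => -1) measurable_const
  have h2 : (fun x : ℝ => ∑ p ∈ Finset.range (⌊x⌋₊ + 1), c p) = fun x : ℝ =>
      ∑ p ∈ (Finset.range (⌊x⌋₊ + 1)).filter (fun p : ℕ => True ∧ (-1 : ℝ) < p), c p := by
    funext x
    refine Finset.sum_congr ?_ fun _ _ => rfl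
    ext q
    simp only [Finset.mem_filter, Finset.mem_range]
    have hq : (-1 : ℝ) < q := by
      have : (0 : ℝ) ≤ q := Nat.cast_nonneg q
      linarith
    tauto
  rw [h2]
  exact h1

theorem bm_logP (ε : Fin k → ℤˣ) : BM (logP a b d ε) := bm_range _

theorem bm_corr' : BM (corr a b d) :=
  BM.step (Good a b d) (fun q => (((q : ℝ) - pointCount a b q) ^ 2 - 2 * q) / (2 * (q : ℝ) ^ 2))
    Real.sqrt Real.continuous_sqrt.measurable

/-- the factor of the primes dividing the `d_i` -/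
noncomputable def kap (a b : ℤ) (d : Fin k → ℤ) (I : Finset (Fin k)) : ℝ :=
  ∏ p ∈ (∏ i, d i).natAbs.primeFactors.filter (GoodPrime (a * dd d I ^ 2) (b * dd d I ^ 3)),
    ((pointCount (a * dd d I ^ 2) (b * dd d I ^ 3) p : ℝ) + 1) / p

theorem kap_pos (I : Finset (Fin k)) : 0 < kap a b d I := by
  unfold kap
  refine Finset.prod_pos fun p hp => ?_
  have hp0 : (0 : ℝ) < p := by exact_mod_cast (Finset.mem_filter.1 hp).2.1.pos
  positivity

theorem good_iff {I : Finset (Fin k)} {p : ℕ} (hp : ¬ (p : ℤ) ∣ ∏ i, d i) :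
    GoodPrime (a * dd d I ^ 2) (b * dd d I ^ 3) p ↔ Good a b d p := by
  constructor
  · rintro ⟨h1, h2⟩
    refine ⟨h1, fun h3 => ?_⟩
    have hp' : Prime (p : ℤ) := Nat.prime_iff_prime_int.1 h1
    rcases hp'.dvd_or_dvd h3 with h4 | h4
    · apply h2
      have e1 : 2 * (-4 * (a * dd d I ^ 2) ^ 3 - 27 * (b * dd d I ^ 3) ^ 2) =
          (2 * (-4 * a ^ 3 - 27 * b ^ 2)) * dd d I ^ 6 := by ring
      rw [e1]
      exact h4.mul_right _
    · exact hp h4
  · intro h
    exact h.goodPrime I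

theorem le_of_dvd (hd : ∀ i, d i ≠ 0) {p : ℕ} (h : (p : ℤ) ∣ ∏ i, d i) :
    p ≤ (∏ i, d i).natAbs := by
  have h5 : (∏ i, d i) ≠ 0 := Finset.prod_ne_zero_iff.2 fun i _ => hd i
  have h6 := Int.natAbs_dvd_natAbs.2 h
  rw [Int.natAbs_natCast] at h6
  exact Nat.le_of_dvd (Int.natAbs_pos.2 h5) h6

/-- the product of the twist and those of the classes -/
theorem log_twist (hd : ∀ i, d i ≠ 0) (I : Finset (Fin k)) {x : ℝ}
    (hx : ((∏ i, d i).natAbs : ℝ) ≤ x) :
    ∑ p ∈ (Finset.range (⌊x⌋₊ + 1)).filter (GoodPrime (a * dd d I ^ 2) (b * dd d I ^ 3)),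
      Real.log (((pointCount (a * dd d I ^ 2) (b * dd d I ^ 3) p : ℝ) + 1) / p) =
    Real.log (kap a b d I) + ∑ ε : Fin k → ℤˣ, (sgn ε I : ℝ) * logP a b d ε x := by
  have h5 : (∏ i, d i) ≠ 0 := Finset.prod_ne_zero_iff.2 fun i _ => hd i
  have e1 : ∑ ε : Fin k → ℤˣ, (sgn ε I : ℝ) * logP a b d ε x =
      ∑ p ∈ Finset.range (⌊x⌋₊ + 1), LI a b d I p := by
    unfold logP
    simp only [Finset.mul_sum]
    rw [Finset.sum_comm]
    exact Finset.sum_congr rfl fun p _ => (LI_eq a b d I p).symm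
  have e2 : Real.log (kap a b d I) =
      ∑ p ∈ (Finset.range (⌊x⌋₊ + 1)).filter
        (fun p => GoodPrime (a * dd d I ^ 2) (b * dd d I ^ 3) p ∧ ¬ Good a b d p),
      Real.log (((pointCount (a * dd d I ^ 2) (b * dd d I ^ 3) p : ℝ) + 1) / p) := by
    unfold kap
    rw [Real.log_prod]
    · refine Finset.sum_congr ?_ fun _ _ => rfl
      ext p
      rw [Finset.mem_filter, Finset.mem_filter, Nat.mem_primeFactors, Finset.mem_range]
      constructor
      · rintro ⟨⟨h1, h2, -⟩, h3⟩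
        have h4 : (p : ℤ) ∣ ∏ i, d i := Int.natCast_dvd.2 h2
        refine ⟨?_, h3, fun h6 => h6.2 (h4.mul_left _)⟩
        have h7 := le_of_dvd hd h4
        have h8 : (p : ℝ) ≤ x := le_trans (by exact_mod_cast h7) hx
        have := Nat.le_floor h8
        omega
      · rintro ⟨-, h2, h3⟩
        have h4 : (p : ℤ) ∣ ∏ i, d i := by
          by_contra hc
          exact h3 ((good_iff hc).1 h2)
        exact ⟨⟨h2.1, Int.natCast_dvd.1 h4, Int.natAbs_ne_zero.2 h5⟩, h2⟩
    · intro p hp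
      have hp0 : (0 : ℝ) < p := by exact_mod_cast (Finset.mem_filter.1 hp).2.1.pos
      positivity
  rw [e1, e2, Finset.sum_filter, Finset.sum_filter, ← Finset.sum_add_distrib]
  refine Finset.sum_congr rfl fun p _ => ?_
  unfold LI
  by_cases hg : Good a b d p
  · rw [if_pos (hg.goodPrime I), if_neg (fun h => h.2 hg), if_pos hg, zero_add]
  · by_cases hg2 : GoodPrime (a * dd d I ^ 2) (b * dd d I ^ 3) p
    · rw [if_pos hg2, if_pos ⟨hg2, hg⟩, if_neg hg, add_zero]
    · rw [if_neg hg2, if_neg (fun h => hg2 h.1), if_neg hg, add_zero]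

/-- the terms of the squares for the twists -/
theorem corr_twist (hd : ∀ i, d i ≠ 0) (I : Finset (Fin k)) {x : ℝ}
    (hx : (((∏ i, d i).natAbs : ℝ)) ^ 2 ≤ x) :
    ∑ p ∈ (Finset.range (⌊x⌋₊ + 1)).filter
        (fun p => GoodPrime (a * dd d I ^ 2) (b * dd d I ^ 3) p ∧ √x < p),
      (((p : ℝ) - pointCount (a * dd d I ^ 2) (b * dd d I ^ 3) p) ^ 2 - 2 * p) /
        (2 * (p : ℝ) ^ 2) = corr a b d x := by
  unfold corr
  have hs : ((∏ i, d i).natAbs : ℝ) ≤ √x := Real.le_sqrt_of_sq_le hx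
  have hn : ∀ p : ℕ, √x < p → ¬ (p : ℤ) ∣ ∏ i, d i := by
    intro p hp h
    have h1 := le_of_dvd hd h
    have h2 : (p : ℝ) ≤ ((∏ i, d i).natAbs : ℝ) := by exact_mod_cast h1
    linarith
  refine Finset.sum_congr ?_ fun p hp => ?_
  · ext p
    rw [Finset.mem_filter, Finset.mem_filter]
    refine and_congr_right fun _ => ?_
    constructor
    · rintro ⟨h1, h2⟩
      exact ⟨(good_iff (hn p h2)).1 h1, h2⟩
    · rintro ⟨h1, h2⟩
      exact ⟨h1.goodPrime I, h2⟩
  · obtain ⟨-, hg, h2⟩ := Finset.mem_filter.1 hp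
    have h3 := pointCount_twist a b hg.1 hg.ne_two (good_dd hg I)
    obtain ⟨δ, hδ⟩ := exists_class hg
    rw [jac_dd hδ I] at h3
    have h4 : ((pointCount (a * dd d I ^ 2) (b * dd d I ^ 3) p : ℝ)) - p =
        (sgn δ I : ℝ) * ((pointCount a b p : ℝ) - p) := by
      have := congrArg (fun z : ℤ => (z : ℝ)) h3
      push_cast at this
      linarith
    have h5 : ((p : ℝ) - pointCount (a * dd d I ^ 2) (b * dd d I ^ 3) p) ^ 2 =
        ((p : ℝ) - pointCount a b p) ^ 2 := by
      have e : (p : ℝ) - pointCount (a * dd d I ^ 2) (b * dd d I ^ 3) p =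
          -((sgn δ I : ℝ) * ((pointCount a b p : ℝ) - p)) := by linarith
      rw [e, neg_sq, mul_pow]
      have h6 : (sgn δ I : ℝ) ^ 2 = 1 := by
        rcases sgn_one_or δ I with h | h <;> rw [h] <;> norm_num
      rw [h6]
      ring
    rw [h5]

end Pool.Agent.Q8.MC
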