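import Pool.Agent.TH270.MS.BM
import Pool.Agent.Q8.MC.Alg

/-!
# Logarithmic means of linear combinations
-/

set_option autoImplicit false

open MeasureTheory Filter Topology Set
open Pool.Agent.TH270.MS

namespace Pool.Agent.Q8.MC

/-- bounded logarithmic means -/
def PB (f : ℝ → ℝ) : Prop :=
  ∃ B : ℝ, ∀ᶠ X : ℝ in atTop, ∫ x in Real.exp 1..X, |f x| / x ≤ B * Real.log X

/-- the logarithmic mean is zero -/
def P1 (f : ℝ → ℝ) : Prop :=
  Tendsto (fun X : ℝ => (∫ x in Real.exp 1..X, |f x| / x) / Real.log X) atTop (𝓝 0)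

/-- the logarithmic mean square is zero -/
def P2 (f : ℝ → ℝ) : Prop :=
  Tendsto (fun X : ℝ => (∫ x in Real.exp 1..X, f x ^ 2 / x) / Real.log X) atTop (𝓝 0)

/-- square integrable for `dx / x` -/
def PI (f : ℝ → ℝ) : Prop := IntegrableOn (fun x : ℝ => f x ^ 2 / x) (Ioi (Real.exp 1))

/-- closed under linear combinations and changes on bounded sets -/
structure Cl (P : (ℝ → ℝ) → Prop) : Prop where
  zero : P fun _ => 0
  add : ∀ f g, BM f → BM g → P f → P g → P fun x => f x + g x
  smul : ∀ (c : ℝ) f, BM f → P f → P fun x => c * f x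
  congr : ∀ f g, BM f → BM g → (∀ᶠ x in atTop, f x = g x) → P f → P g

theorem int_le_add {u v w : ℝ → ℝ} (hu : Pool.Agent.TH270.MS.LI u) (hv : Pool.Agent.TH270.MS.LI v)
    (hw : Pool.Agent.TH270.MS.LI w)
    (h : ∀ y : ℝ, Real.exp 1 ≤ y → u y ≤ v y + w y) {Y : ℝ} (hY : Real.exp 1 ≤ Y) :
    ∫ x in Real.exp 1..Y, u x / x ≤
      (∫ x in Real.exp 1..Y, v x / x) + ∫ x in Real.exp 1..Y, w x / x := by
  rw [← intervalIntegral.integral_add (hv.div Y hY) (hw.div Y hY)]
  refine intervalIntegral.integral_mono_on hY (hu.div Y hY)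
    ((hv.div Y hY).add (hw.div Y hY)) fun y hy => ?_
  have hy0 : 0 < y := (Real.exp_pos 1).trans_le hy.1
  rw [← add_div]
  exact div_le_div_of_nonneg_right (h y hy.1) hy0.le

theorem int_nonneg {u : ℝ → ℝ} (h : ∀ y : ℝ, 0 ≤ u y) {Y : ℝ} (hY : Real.exp 1 ≤ Y) :
    0 ≤ ∫ x in Real.exp 1..Y, u x / x :=
  intervalIntegral.integral_nonneg hY fun y hy =>
    div_nonneg (h y) ((Real.exp_pos 1).trans_le hy.1).le

/-- functions which agree for large arguments -/
theorem close {f g : ℝ → ℝ} (hf : BM f) (hg : BM g) (h : ∀ᶠ x in atTop, f x = g x) :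
    ∃ Y M : ℝ, 1 ≤ Y ∧ 0 ≤ M ∧ (∀ y, Real.exp 1 ≤ y → |f y - g y| ≤ M) ∧
      ∀ y, Y ≤ y → f y = g y := by
  obtain ⟨Y, hY⟩ := h.exists_forall_of_atTop
  obtain ⟨M, hM⟩ := (hf.sub hg).2 (max Y 1)
  refine ⟨max Y 1, |M|, le_max_right _ _, abs_nonneg _, fun y hy => ?_, fun y hy =>
    hY y ((le_max_left _ _).trans hy)⟩
  rcases le_or_gt y (max Y 1) with h1 | h1
  · exact (hM y hy h1).trans (le_abs_self M)
  · rw [hY y ((le_max_left _ _).trans h1.le), sub_self, abs_zero]
    exact abs_nonneg M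

theorem tendsto_of_eq {f g : ℝ → ℝ} (h : ∀ᶠ x in atTop, f x = g x) :
    Tendsto (fun y => f y - g y) atTop (𝓝 0) := by
  refine tendsto_const_nhds.congr' ?_
  filter_upwards [h] with x hx
  rw [hx, sub_self]

theorem clPB : Cl PB where
  zero := by
    refine ⟨0, Eventually.of_forall fun X => ?_⟩
    simp
  add := by
    rintro f g hf hg ⟨B, hB⟩ ⟨B', hB'⟩
    refine ⟨B + B', ?_⟩
    filter_upwards [hB, hB', eventually_ge_atTop (Real.exp 1)] with X h1 h2 hX
    have h3 := int_le_add (hf.add hg).li.abs hf.li.abs hg.li.abs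
      (fun y _ => abs_add_le (f y) (g y)) hX
    linarith
  smul := by
    rintro c f hf ⟨B, hB⟩
    refine ⟨|c| * B, ?_⟩
    filter_upwards [hB] with X h1
    have e : (fun x : ℝ => |c * f x| / x) = fun x => |c| * (|f x| / x) := by
      funext x
      rw [abs_mul]
      ring
    rw [e, intervalIntegral.integral_const_mul, mul_assoc]
    exact mul_le_mul_of_nonneg_left h1 (abs_nonneg c)
  congr := by
    intro f g hf hg h hP
    obtain ⟨Y, M, -, -, h1, -⟩ := close hf hg h
    exact bmean_of hf.li hg.li h1 hP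

theorem clP1 : Cl P1 where
  zero := by
    unfold P1
    simp
  add := by
    intro f g hf hg h1 h2
    have h3 := Tendsto.add h1 h2
    rw [add_zero] at h3
    refine squeeze_zero' ?_ ?_ h3
    · filter_upwards [eventually_ge_atTop (Real.exp 1)] with X hX
      exact div_nonneg (int_nonneg (fun y => abs_nonneg _) hX) (by linarith [one_le_log hX])
    · filter_upwards [eventually_ge_atTop (Real.exp 1)] with X hX
      rw [← add_div]
      refine div_le_div_of_nonneg_right ?_ (by linarith [one_le_log hX])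
      exact int_le_add (hf.add hg).li.abs hf.li.abs hg.li.abs
        (fun y _ => abs_add_le (f y) (g y)) hX
  smul := by
    intro c f hf h
    have h1 := Tendsto.const_mul |c| h
    rw [mul_zero] at h1
    refine h1.congr fun X => ?_
    have e : (fun x : ℝ => |c * f x| / x) = fun x => |c| * (|f x| / x) := by
      funext x
      rw [abs_mul]
      ring
    rw [e, intervalIntegral.integral_const_mul]
    ring
  congr := by
    intro f g hf hg h hP
    exact (lmean_iff hf.li hg.li (tendsto_of_eq h)).1 hP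

theorem clP2 : Cl P2 where
  zero := by
    unfold P2
    simp
  add := by
    intro f g hf hg h1 h2
    have h3 := Tendsto.const_mul 2 (Tendsto.add h1 h2)
    rw [add_zero, mul_zero] at h3
    refine squeeze_zero' ?_ ?_ h3
    · filter_upwards [eventually_ge_atTop (Real.exp 1)] with X hX
      exact div_nonneg (int_nonneg (fun y => sq_nonneg _) hX) (by linarith [one_le_log hX])
    · filter_upwards [eventually_ge_atTop (Real.exp 1)] with X hX
      rw [← add_div, ← mul_div_assoc]
      refine div_le_div_of_nonneg_right ?_ (by linarith [one_le_log hX])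
      have h4 := int_le_add (hf.add hg).sq.li ((BM.const 2).mul hf.sq).li
        ((BM.const 2).mul hg.sq).li
        (fun y _ => by nlinarith [sq_nonneg (f y - g y)]) hX
      simp only [mul_div_assoc] at h4
      rw [intervalIntegral.integral_const_mul, intervalIntegral.integral_const_mul] at h4
      linarith
  smul := by
    intro c f hf h
    have h1 := Tendsto.const_mul (c ^ 2) h
    rw [mul_zero] at h1
    refine h1.congr fun X => ?_
    have e : (fun x : ℝ => (c * f x) ^ 2 / x) = fun x => c ^ 2 * (f x ^ 2 / x) := by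
      funext x
      ring
    rw [e, intervalIntegral.integral_const_mul]
    ring
  congr := by
    intro f g hf hg h hP
    have h1 : ∀ᶠ x in atTop, f x ^ 2 = g x ^ 2 := h.mono fun x hx => by rw [hx]
    have h2 := lmean_iff hf.sq.li hg.sq.li (tendsto_of_eq h1)
    have e : ∀ u : ℝ → ℝ, (fun y => |u y ^ 2|) = fun y => u y ^ 2 := fun u => by
      funext y
      exact abs_of_nonneg (sq_nonneg _)
    rw [e f, e g] at h2
    exact h2.1 hP

theorem clPI : Cl PI where
  zero := by
    unfold PI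
    simp
  add := by
    intro f g hf hg h1 h2
    have h3 : Integrable (fun x : ℝ => 2 * (f x ^ 2 / x) + 2 * (g x ^ 2 / x))
        (volume.restrict (Ioi (Real.exp 1))) := (h1.const_mul 2).add (h2.const_mul 2)
    refine Integrable.mono' h3 ?_ ?_
    · have h4 : AEStronglyMeasurable (fun y : ℝ => y⁻¹) (volume.restrict (Ioi (Real.exp 1))) :=
        measurable_inv.aestronglyMeasurable
      refine ((hf.add hg).sq.1.mul h4).congr (Eventually.of_forall fun y => ?_)
      simp only [Pi.mul_apply]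
      ring
    · filter_upwards [ae_restrict_mem measurableSet_Ioi] with y hy
      have hy0 : 0 < y := (Real.exp_pos 1).trans hy
      rw [Real.norm_of_nonneg (by positivity)]
      calc (f y + g y) ^ 2 / y ≤ (2 * f y ^ 2 + 2 * g y ^ 2) / y := by
            gcongr
            nlinarith [sq_nonneg (f y - g y)]
        _ = _ := by ring
  smul := by
    intro c f hf h
    have h1 := Integrable.const_mul h (c ^ 2)
    refine h1.congr (Eventually.of_forall fun x => ?_)
    simp only
    ring
  congr := by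
    intro f g hf hg h hP
    obtain ⟨Y, M, hY, hM, h1, h2⟩ := close hf hg h
    refine sq_int_of_close (f := g) (g := f) (C := M * Y ^ (1 / 12 : ℝ)) hg.1 (fun y hy => ?_) hP
    have hy0 : 0 < y := (Real.exp_pos 1).trans_le hy
    have hY0 : 0 < Y := by linarith
    rcases le_or_gt y Y with h3 | h3
    · rw [abs_sub_comm]
      refine (h1 y hy).trans ?_
      rw [mul_assoc]
      have h4 : 1 ≤ Y ^ (1 / 12 : ℝ) * y ^ (-(1 / 12 : ℝ)) := by
        rw [Real.rpow_neg hy0.le, ← div_eq_mul_inv, one_le_div (by positivity)]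
        exact Real.rpow_le_rpow hy0.le h3 (by norm_num)
      nlinarith
    · rw [h2 y h3.le, sub_self, abs_zero]
      positivity

/-- congruence on the half line -/
theorem bm_congr {f g : ℝ → ℝ} (hf : BM f) (h : ∀ x : ℝ, Real.exp 1 ≤ x → f x = g x) : BM g := by
  refine ⟨hf.1.congr ?_, fun Y => ?_⟩
  · filter_upwards [ae_restrict_mem measurableSet_Ioi] with x hx
    exact h x (le_of_lt hx)
  · obtain ⟨M, hM⟩ := hf.2 Y
    exact ⟨M, fun y h1 h2 => by rw [← h y h1]; exact hM y h1 h2⟩

theorem bm_sum {ι : Type*} (s : Finset ι) (c : ι → ℝ) (u : ι → ℝ → ℝ) (hu : ∀ i, BM (u i)) :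
    BM fun x => ∑ i ∈ s, c i * u i x := by
  classical
  induction s using Finset.induction_on with
  | empty =>
    simp only [Finset.sum_empty]
    exact BM.const 0
  | insert i s hi ih =>
    simp only [Finset.sum_insert hi]
    exact ((BM.const (c i)).mul (hu i)).add ih

theorem Cl.sum {P : (ℝ → ℝ) → Prop} (hP : Cl P) {ι : Type*} (s : Finset ι) (c : ι → ℝ)
    (u : ι → ℝ → ℝ) (hu : ∀ i, BM (u i)) (h : ∀ i, P (u i)) : P fun x => ∑ i ∈ s, c i * u i x := by
  classical
  induction s using Finset.induction_on with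
  | empty =>
    simp only [Finset.sum_empty]
    exact hP.zero
  | insert i s hi ih =>
    simp only [Finset.sum_insert hi]
    exact hP.add _ _ ((BM.const (c i)).mul (hu i)) (bm_sum s c u hu) (hP.smul _ _ (hu i) (h i)) ih

/-- the passage between classes and twists -/
theorem Cl.equiv {P : (ℝ → ℝ) → Prop} (hP : Cl P) {k : ℕ} (u : (Fin k → ℤˣ) → ℝ → ℝ)
    (v : Finset (Fin k) → ℝ → ℝ) (hu : ∀ ε, BM (u ε)) (hv : ∀ I, BM (v I))
    (h : ∀ I, ∀ᶠ x in atTop, v I x = ∑ ε : Fin k → ℤˣ, (sgn ε I : ℝ) * u ε x) :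
    (∀ I, P (v I)) ↔ ∀ ε, P (u ε) := by
  have hw : ∀ I, BM fun x => ∑ ε : Fin k → ℤˣ, (sgn ε I : ℝ) * u ε x := fun I =>
    bm_sum _ (fun ε => (sgn ε I : ℝ)) u hu
  constructor
  · intro h1 ε
    have h2 : ∀ I, P fun x => ∑ ε : Fin k → ℤˣ, (sgn ε I : ℝ) * u ε x := fun I =>
      hP.congr _ _ (hv I) (hw I) (h I) (h1 I)
    have h3 := hP.smul (1 / 2 ^ k) _ (bm_sum _ (fun I => (sgn ε I : ℝ)) _ hw)
      (hP.sum Finset.univ (fun I : Finset (Fin k) => (sgn ε I : ℝ)) _ hw h2)
    have e : (fun x => 1 / 2 ^ k * ∑ I : Finset (Fin k), (sgn ε I : ℝ) *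
        ∑ δ : Fin k → ℤˣ, (sgn δ I : ℝ) * u δ x) = u ε := by
      funext x
      have h4 : ∑ I : Finset (Fin k), (sgn ε I : ℝ) * ∑ δ : Fin k → ℤˣ, (sgn δ I : ℝ) * u δ x =
          ∑ δ : Fin k → ℤˣ, (∑ I : Finset (Fin k), (sgn ε I : ℝ) * sgn δ I) * u δ x := by
        simp only [Finset.mul_sum, Finset.sum_mul]
        rw [Finset.sum_comm]
        refine Finset.sum_congr rfl fun δ _ => Finset.sum_congr rfl fun I _ => ?_
        ring
      have h5 : ∀ δ : Fin k → ℤˣ, ∑ I : Finset (Fin k), (sgn ε I : ℝ) * sgn δ I =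
          if ε = δ then 2 ^ k else 0 := fun δ => by
        have := congrArg (fun z : ℤ => (z : ℝ)) (sum_sgn_mul ε δ)
        push_cast at this
        exact this
      rw [h4]
      simp only [h5, ite_mul, zero_mul]
      rw [Finset.sum_ite_eq, if_pos (Finset.mem_univ _)]
      field_simp
    rw [e] at h3
    exact h3
  · intro h1 I
    refine hP.congr _ _ (hw I) (hv I) ((h I).mono fun x hx => hx.symm) ?_
    exact hP.sum Finset.univ (fun ε => (sgn ε I : ℝ)) u hu h1

end Pool.Agent.Q8.MC
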